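import Pool.Agent.MP_db5b97_nt.H31.SpecT

/-! A Kummer extension of a cyclotomic field has full degree. -/

namespace Pool.Agent.MP_db5b97_nt.H73

open H85 H31 NumberField Polynomial MulAction

theorem not_pow {p b : ℕ} (hp : p.Prime) (hb : b.Prime) (x : ℚ) : x ^ p ≠ b := by
  intro h
  have : Fact b.Prime := ⟨hb⟩
  have h1 := congrArg (padicValRat b) h
  rw [padicValRat.pow, padicValRat.self hb.one_lt] at h1
  have h2 : (p : ℤ) ∣ 1 := ⟨_, h1.symm⟩
  exact hp.one_lt.ne' (Nat.dvd_one.1 (by exact_mod_cast h2))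

theorem exists_sq {p : ℕ} (hp : p.Prime) (h2 : p ≠ 2) :
    ∃ t : Ga, ∀ x : Om, x ^ p = 1 → t x = x ^ 2 := by
  have : NeZero p := ⟨hp.ne_zero⟩
  obtain ⟨ω, hω⟩ := HasEnoughRootsOfUnity.exists_primitiveRoot Om p
  have hc : Nat.Coprime 2 p := (Nat.coprime_primes Nat.prime_two hp).2 h2.symm
  have hω2 := hω.pow_of_coprime 2 hc
  have h0 : aeval (ω ^ 2) (minpoly ℚ ω) = 0 := by
    rw [← cyclotomic_eq_minpoly_rat hω hp.pos, cyclotomic_eq_minpoly_rat hω2 hp.pos]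
    exact minpoly.aeval _ _
  obtain ⟨t, ht⟩ := minpoly.exists_algEquiv_of_root' (Algebra.IsAlgebraic.isAlgebraic ω) h0
  refine ⟨t, fun x hx => ?_⟩
  obtain ⟨i, -, rfl⟩ := hω.eq_pow_of_pow_eq_one hx
  rw [map_pow, ht, ← pow_mul, ← pow_mul, mul_comm]

theorem comm_root {n : ℕ} (hn : n ≠ 0) {ζ : Om} (hζ : IsPrimitiveRoot ζ n) (s t : Ga) :
    s (t ζ) = t (s ζ) := by
  have : NeZero n := ⟨hn⟩
  have h : ∀ u : Ga, ∃ i, u ζ = ζ ^ i := fun u => by
    obtain ⟨i, -, hi⟩ := hζ.eq_pow_of_pow_eq_one (ξ := u ζ)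
      (by rw [← map_pow, hζ.pow_eq_one, map_one])
    exact ⟨i, hi.symm⟩
  obtain ⟨i, hi⟩ := h s
  obtain ⟨j, hj⟩ := h t
  rw [hi, hj, map_pow, map_pow, hi, hj, ← pow_mul, ← pow_mul, mul_comm]

theorem no_root {p b : ℕ} (hp : p.Prime) (h2 : p ≠ 2) (hb : b.Prime) {δ : Om}
    (hc : ∀ s t : Ga, s (t δ) = t (s δ)) : δ ^ p ≠ b := by
  intro h
  obtain ⟨t, ht⟩ := exists_sq hp h2
  have hb0 : (b : Om) ≠ 0 := by exact_mod_cast hb.ne_zero
  have hq : ∀ (x : Om), x ^ p = b → ∀ s : Ga, ∃ η : Om, η ^ p = 1 ∧ η ≠ 0 ∧ s x = η * x := by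
    intro x hx s
    have hx0 : x ≠ 0 := by
      rintro rfl
      exact hb0 (by rw [← hx, zero_pow hp.ne_zero])
    refine ⟨s x / x, ?_, div_ne_zero ((map_ne_zero s).2 hx0) hx0, by field_simp⟩
    rw [div_pow, ← map_pow, hx, map_natCast, div_self hb0]
  obtain ⟨η, h1, h0, he⟩ := hq δ h t
  have hγ : (δ / η) ^ p = b := by rw [div_pow, h1, div_one, h]
  have hγ0 : δ / η ≠ 0 := by
    intro h3
    exact hb0 (by rw [← hγ, h3, zero_pow hp.ne_zero])
  have htγ : t (δ / η) = δ / η := by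
    rw [map_div₀, he, ht η h1]
    field_simp
  have hfix : ∀ s : Ga, s (δ / η) = δ / η := by
    intro s
    obtain ⟨θ, k1, k0, ke⟩ := hq _ hγ s
    have e1 : s (t (δ / η)) = t (s (δ / η)) := by
      rw [map_div₀, map_div₀, map_div₀, map_div₀, hc, ht η h1, map_pow,
        ht (s η) (by rw [← map_pow, h1, map_one])]
    rw [htγ, ke, map_mul, htγ, ht θ k1] at e1
    have e2 : θ = θ ^ 2 := mul_right_cancel₀ hγ0 e1
    have e3 : θ = 1 := by
      have : θ * 1 = θ * θ := by rw [mul_one, ← sq]; exact e2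
      exact (mul_left_cancel₀ k0 this).symm
    rw [ke, e3, one_mul]
  obtain ⟨x, hx⟩ := (InfiniteGalois.mem_range_algebraMap_iff_fixed (k := ℚ) (δ / η)).2 hfix
  refine not_pow hp hb x ((algebraMap ℚ Om).injective ?_)
  rw [map_pow, hx, hγ, map_natCast]

theorem rowKUM : RowKUM := by
  intro p a K b ζ α hp h2 hb _ hζ hα
  have hirr : Irreducible (X ^ p ^ a - C (b : Fx (stabilizer Ga ζ))) := by
    refine X_pow_sub_C_irreducible_of_prime_pow hp h2 a fun δ hδ => ?_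
    refine no_root hp h2 hb (δ := (δ : Om)) (fun s t => ?_) ?_
    · have hm : (t * s)⁻¹ * (s * t) ∈ stabilizer Ga ζ := by
        rw [mem_stabilizer_iff, mul_smul, inv_smul_eq_iff]
        exact comm_root (pow_ne_zero K hp.ne_zero) hζ s t
      have := Fx.fix δ hm
      have h3 : ((t * s)⁻¹ * (s * t)) • (δ : Om) = δ := this
      rw [mul_smul, inv_smul_eq_iff] at h3
      exact h3
    · simpa using congrArg Subtype.val hδ
  have hg : (X ^ p ^ a - C (b : 𝓞 (Fx (stabilizer Ga ζ)))).Monic :=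
    monic_X_pow_sub_C _ (pow_ne_zero a hp.ne_zero)
  have := relIndex_stab (S := stabilizer Ga ζ) (α := α) hg (by simpa using hirr) (by simp [hα])
  rwa [natDegree_X_pow_sub_C, Subgroup.inf_relIndex_left] at this

end Pool.Agent.MP_db5b97_nt.H73
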